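import Mathlib
import Pool.Agent.N312.SBioD

set_option autoImplicit false

/-!
# MP_0543b0_an: biorthogonal systems whose dual parts have weak*-closed partial spans

Affirmative answer to Q1: if `E*` is separable, there is a biorthogonal system `(x n, f n)`,
complete in `E` and in `E*`, such that for every set `M` of indices the norm-closed span of the
`f n`, `n ∈ M`, is the annihilator of the `x j`, `j ∉ M`; in particular it is weak*-closed.
-/

namespace Pool.Agent.Results.MP_0543b0_an.WeakStarClosedPartialSpans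

/-- Every infinite-dimensional Banach space `E` over `ℝ` or `ℂ` with norm-separable dual has a
biorthogonal system `(x n, f n)` with `[x n] = E` and `[f n] = E*` such that for every set `M` of
indices `[f n : n ∈ M]` is the annihilator of `{x j : j ∉ M}`; in particular for every strictly
increasing sequence `n k` of indices the norm-closed span of the `f (n k)` is weak*-closed. -/
theorem result (𝕜 : Type*) [RCLike 𝕜] (E : Type*) [NormedAddCommGroup E] [NormedSpace 𝕜 E]
    [CompleteSpace E] [TopologicalSpace.SeparableSpace (StrongDual 𝕜 E)]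
    (hE : ¬ FiniteDimensional 𝕜 E) :
    ∃ (x : ℕ → E) (f : ℕ → StrongDual 𝕜 E),
      (∀ i j, f i (x j) = if i = j then 1 else 0) ∧
      (Submodule.span 𝕜 (Set.range x)).topologicalClosure = ⊤ ∧
      (Submodule.span 𝕜 (Set.range f)).topologicalClosure = ⊤ ∧
      (∀ M : Set ℕ, ((Submodule.span 𝕜 (f '' M)).topologicalClosure : Set (StrongDual 𝕜 E)) =
        {g | ∀ j, j ∉ M → g (x j) = 0}) ∧
      (∀ n : ℕ → ℕ, StrictMono n →
        IsClosed ((StrongDual.toWeakDual : StrongDual 𝕜 E → WeakDual 𝕜 E) ''
          ((Submodule.span 𝕜 (Set.range fun k => f (n k))).topologicalClosure :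
            Set (StrongDual 𝕜 E)))) := by
  obtain ⟨x0, f0, h1, h2, h3⟩ := Pool.Agent.N312.SBio.exists_shrinking_biorth (𝕜 := 𝕜) hE
  obtain ⟨x, f, k1, k2, k3, k4⟩ := Pool.Agent.N312.SBio.exists_strong h1 h2 h3
  refine ⟨x, f, k1, Submodule.dense_iff_topologicalClosure_eq_top.1 k2,
    Submodule.dense_iff_topologicalClosure_eq_top.1 k3, fun M => ?_, fun n _ => ?_⟩
  · rw [Submodule.topologicalClosure_coe]
    exact k4 M
  · have e : ((Submodule.span 𝕜 (Set.range fun k => f (n k))).topologicalClosure :
        Set (StrongDual 𝕜 E)) = {g | ∀ j, j ∉ Set.range n → g (x j) = 0} := by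
      rw [Submodule.topologicalClosure_coe, ← k4 (Set.range n)]
      congr 3
      ext g
      constructor
      · rintro ⟨k, rfl⟩; exact ⟨n k, ⟨k, rfl⟩, rfl⟩
      · rintro ⟨_, ⟨k, rfl⟩, rfl⟩; exact ⟨k, rfl⟩
    rw [e]
    have e2 : ((StrongDual.toWeakDual : StrongDual 𝕜 E → WeakDual 𝕜 E) ''
        {g | ∀ j, j ∉ Set.range n → g (x j) = 0}) =
        ⋂ j ∈ (Set.range n)ᶜ, {g : WeakDual 𝕜 E | g (x j) = 0} := by
      ext g
      simp only [Set.mem_image, Set.mem_iInter]
      constructor
      · rintro ⟨g', hg', rfl⟩ j hj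
        exact hg' j hj
      · intro hg
        exact ⟨WeakDual.toStrongDual g, fun j hj => hg j hj, rfl⟩
    rw [e2]
    refine isClosed_biInter fun j _ => ?_
    exact isClosed_eq (WeakDual.eval_continuous (x j)) continuous_const

end Pool.Agent.Results.MP_0543b0_an.WeakStarClosedPartialSpans
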